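import Mathlib
import Pool.Agent.R833.RI4

/-!
# A Cohen-Macaulay codimension two arrangement which is not the residue ideal of a free arrangement
-/

set_option autoImplicit false
set_option linter.unusedSectionVars false

namespace Pool.Agent.Results.MP_97ec3f_ag.FiveLines

open MvPolynomial Pool.Agent.R833 Pool.Agent.R833.Arr Pool.Agent.R833.RI

variable {K : Type} [Field K]

/-- the five lines -/
def aa (t s : K) : Fin 5 → Fin 3 → K :=
  ![![1, 0, 0], ![0, 1, 0], ![0, 0, 1], ![1, 1, 1], ![1, t, s]]

lemma gen_aa {t s : K} (ht0 : t ≠ 0) (ht1 : t ≠ 1) (hs0 : s ≠ 0) (hs1 : s ≠ 1) (hst : s ≠ t) :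
    Gen (aa t s) := by
  have h1 : t - 1 ≠ 0 := sub_ne_zero.2 ht1
  have h2 : s - 1 ≠ 0 := sub_ne_zero.2 hs1
  have h3 : s - t ≠ 0 := sub_ne_zero.2 hst
  intro i j k hij hik hjk
  rw [Fin.sum_univ_three, cr0, cr1, cr2]
  fin_cases i <;> fin_cases j <;> first | exact absurd rfl hij | skip
  all_goals fin_cases k <;> first | exact absurd rfl hik | exact absurd rfl hjk | skip
  all_goals simp [aa]
  all_goals intro h
  all_goals first
    | exact hs0 h
    | exact ht0 h
    | exact h1 (by linear_combination h)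
    | exact h1 (by linear_combination -h)
    | exact h2 (by linear_combination h)
    | exact h2 (by linear_combination -h)
    | exact h3 (by linear_combination h)
    | exact h3 (by linear_combination -h)

lemma exists_two (hK : 4 ≤ Cardinal.mk K) :
    ∃ t s : K, t ≠ 0 ∧ t ≠ 1 ∧ s ≠ 0 ∧ s ≠ 1 ∧ s ≠ t := by
  classical
  have h1 : Cardinal.mk (Fin 4) ≤ Cardinal.mk K := by
    rw [Cardinal.mk_fin]
    exact_mod_cast hK
  obtain ⟨f⟩ := (Cardinal.le_def _ _).1 h1
  have h2 : 1 < ((Finset.univ.map f) \ {0, 1} : Finset K).card := by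
    have h3 := Finset.le_card_sdiff ({0, 1} : Finset K) (Finset.univ.map f)
    rw [Finset.card_map, Finset.card_univ, Fintype.card_fin] at h3
    have h4 : ({0, 1} : Finset K).card ≤ 2 := Finset.card_le_two
    omega
  obtain ⟨t, ht, s, hs, hts⟩ := Finset.one_lt_card.1 h2
  rw [Finset.mem_sdiff, Finset.mem_insert, Finset.mem_singleton] at ht hs
  exact ⟨t, s, fun h => ht.2 (Or.inl h), fun h => ht.2 (Or.inr h), fun h => hs.2 (Or.inl h),
    fun h => hs.2 (Or.inr h), hts.symm⟩

/-- **A negative answer to question Q2.** Over every field `K` with at least four elements there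
is a Cohen-Macaulay codimension two subspace arrangement `B` in `K^3` which is not the residue
arrangement of any free arrangement `A`, whatever the hyperplane number `i₀` of `A`. -/
theorem result (K : Type) [Field K] (hK : 4 ≤ Cardinal.mk K) :
    ∃ B : Set (Submodule K (Fin 3 → K)), IsCodimTwo B ∧ IsCohenMacaulay B ∧
      ∀ (l n : ℕ) (A : Fin n → Fin l → K) (i₀ : Fin n), IsArrangement A →
        Module.Free (MvPolynomial (Fin l) K) (logDer A) → ¬ IsResidueArrangement A i₀ B := by
  obtain ⟨t, s, ht0, ht1, hs0, hs1, hst⟩ := exists_two hK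
  have hgen := gen_aa ht0 ht1 hs0 hs1 hst
  refine ⟨star (aa t s), star_codim hgen, star_cm hgen, ?_⟩
  intro l n A i₀ hA hfree hB
  obtain ⟨r, h, hr, hh⟩ := definingIdeal_gens hA i₀ hfree hB
  have h5 := five_gens hgen h hh
  obtain ⟨J, hJ, e, he1, he2, he3⟩ := hB
  have h6 : Module.finrank K (LinearMap.range e) = 3 := by
    rw [LinearMap.finrank_range_of_inj he1]
    simp
  rw [he2] at h6
  cases l with
  | zero => omega
  | succ l' =>
    rw [ST.finrank_hyperplane (hA.1 i₀)] at h6
    omega

end Pool.Agent.Results.MP_97ec3f_ag.FiveLines
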